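import Pool.Agent.Helper82.EN.Basic

set_option autoImplicit false

namespace Pool.Agent.Helper82.EN

theorem par_lt (l : ℕ) : l ≤ 2 ^ l := (Nat.lt_two_pow_self).le

theorem par_nine (a : ℕ) : 2 ^ a * 8 ^ (6 * a) ≤ 9 ^ (6 * a) := by
  have h : (2 * 8 ^ 6) ^ a ≤ (9 ^ 6) ^ a := Nat.pow_le_pow_left (by norm_num) a
  calc 2 ^ a * 8 ^ (6 * a) = (2 * 8 ^ 6) ^ a := by rw [mul_pow, pow_mul]
    _ ≤ (9 ^ 6) ^ a := h
    _ = 9 ^ (6 * a) := (pow_mul _ _ _).symm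

theorem par_six (a : ℕ) : 6 ^ a ≤ 2 ^ (3 * a) := by
  calc 6 ^ a ≤ 8 ^ a := Nat.pow_le_pow_left (by norm_num) a
    _ = (2 ^ 3) ^ a := by norm_num
    _ = 2 ^ (3 * a) := (pow_mul _ _ _).symm

theorem par_p1 (l : ℕ) (hl : 1 ≤ l) :
    100000 * ((3 * (240000 * l) + 15 * (360 * l) + 3) *
      (2 * (2 ^ l * (3 * (360 * l)) * 216 ^ (360 * l)))) ≤ 243 ^ (360 * l) := by
  have h9 := par_nine (60 * l)
  rw [show 6 * (60 * l) = 360 * l by ring] at h9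
  have h243 : 2 ^ (60 * l) * 216 ^ (360 * l) ≤ 243 ^ (360 * l) := by
    calc 2 ^ (60 * l) * 216 ^ (360 * l) = 27 ^ (360 * l) * (2 ^ (60 * l) * 8 ^ (360 * l)) := by
          rw [show (216 : ℕ) = 27 * 8 by norm_num, mul_pow]; ring
      _ ≤ 27 ^ (360 * l) * 9 ^ (360 * l) := Nat.mul_le_mul_left _ h9
      _ = (27 * 9) ^ (360 * l) := (mul_pow _ _ _).symm
      _ = 243 ^ (360 * l) := by norm_num
  refine le_trans ?_ h243
  have h1 : 3 * (240000 * l) + 15 * (360 * l) + 3 ≤ 2 ^ 20 * l := by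
    have : (2 : ℕ) ^ 20 = 1048576 := by norm_num
    rw [this]; omega
  have h2 : 2 * (3 * (360 * l)) ≤ 2 ^ 12 * l := by
    have : (2 : ℕ) ^ 12 = 4096 := by norm_num
    rw [this]; omega
  have h3 : (100000 : ℕ) ≤ 2 ^ 17 := by norm_num
  have h4 : l * l ≤ 2 ^ (2 * l) := by
    rw [two_mul, pow_add]
    exact Nat.mul_le_mul (par_lt l) (par_lt l)
  calc 100000 * ((3 * (240000 * l) + 15 * (360 * l) + 3) *
      (2 * (2 ^ l * (3 * (360 * l)) * 216 ^ (360 * l))))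
      = (100000 * (3 * (240000 * l) + 15 * (360 * l) + 3) * (2 * (3 * (360 * l)))) * 2 ^ l *
          216 ^ (360 * l) := by ring
    _ ≤ (2 ^ 17 * (2 ^ 20 * l) * (2 ^ 12 * l)) * 2 ^ l * 216 ^ (360 * l) := by
        gcongr
    _ = 2 ^ 49 * (l * l) * 2 ^ l * 216 ^ (360 * l) := by ring
    _ ≤ 2 ^ 49 * 2 ^ (2 * l) * 2 ^ l * 216 ^ (360 * l) := by gcongr
    _ = 2 ^ (49 + 2 * l + l) * 216 ^ (360 * l) := by rw [pow_add, pow_add]
    _ ≤ 2 ^ (60 * l) * 216 ^ (360 * l) :=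
        Nat.mul_le_mul_right _ (Nat.pow_le_pow_right (by norm_num) (by omega))

theorem par_delta (l : ℕ) :
    100000 * (4 * (2 ^ l) ^ 2 * (240000 * l) ^ 2 * 6 ^ (4 * (3 * (360 * l)))) ≤
      2 ^ (55 + 12964 * l) := by
  have h3 : (100000 : ℕ) ≤ 2 ^ 17 := by norm_num
  have h1 : 240000 * l ≤ 2 ^ (18 + l) := by
    calc 240000 * l ≤ 2 ^ 18 * 2 ^ l := Nat.mul_le_mul (by norm_num) (par_lt l)
      _ = 2 ^ (18 + l) := (pow_add _ _ _).symm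
  have h2 := par_six (4 * (3 * (360 * l)))
  calc 100000 * (4 * (2 ^ l) ^ 2 * (240000 * l) ^ 2 * 6 ^ (4 * (3 * (360 * l))))
      ≤ 2 ^ 17 * (2 ^ 2 * (2 ^ l) ^ 2 * (2 ^ (18 + l)) ^ 2 * 2 ^ (3 * (4 * (3 * (360 * l))))) := by
        gcongr
        norm_num
    _ = 2 ^ (17 + (2 + l * 2 + (18 + l) * 2 + 3 * (4 * (3 * (360 * l))))) := by
        rw [← pow_mul, ← pow_mul, ← pow_add, ← pow_add, ← pow_add, ← pow_add]
    _ = 2 ^ (55 + 12964 * l) := by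
        congr 1
        ring

theorem par_p3 (l : ℕ) (hl : 1 ≤ l) : 100000 * DD l ^ 3 ≤ 9 ^ (240000 * l) := by
  have h9 := par_nine (40000 * l)
  rw [show 6 * (40000 * l) = 240000 * l by ring] at h9
  have hD := par_delta l
  have h3 : (100000 : ℕ) ≤ 2 ^ 17 := by norm_num
  unfold DD
  generalize hX : 100000 * (4 * (2 ^ l) ^ 2 * (240000 * l) ^ 2 * 6 ^ (4 * (3 * (360 * l)))) = X at hD
  calc 100000 * (X * 2 ^ (240000 * l)) ^ 3
      = 100000 * X ^ 3 * (2 ^ (240000 * l)) ^ 3 := by rw [mul_pow, mul_assoc]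
    _ = 100000 * X ^ 3 * (2 ^ 3) ^ (240000 * l) := by rw [← pow_mul, ← pow_mul, mul_comm (240000 * l) 3]
    _ = 100000 * X ^ 3 * 8 ^ (240000 * l) := by norm_num
    _ ≤ 2 ^ 17 * (2 ^ (55 + 12964 * l)) ^ 3 * 8 ^ (240000 * l) := by
        gcongr
    _ = 2 ^ (17 + (55 + 12964 * l) * 3) * 8 ^ (240000 * l) := by rw [← pow_mul, ← pow_add]
    _ ≤ 2 ^ (40000 * l) * 8 ^ (240000 * l) :=
        Nat.mul_le_mul_right _ (Nat.pow_le_pow_right (by norm_num) (by omega))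
    _ ≤ 9 ^ (240000 * l) := h9

theorem par_p4 (l : ℕ) (hl : 1 ≤ l) :
    100000 * (2 * 2 ^ l * (240000 * l) * 6 ^ (2 * (3 * (360 * l)))) ≤ 3 ^ (240000 * l) := by
  have h3 : (100000 : ℕ) ≤ 2 ^ 17 := by norm_num
  have h1 : 240000 * l ≤ 2 ^ (18 + l) := by
    calc 240000 * l ≤ 2 ^ 18 * 2 ^ l := Nat.mul_le_mul (by norm_num) (par_lt l)
      _ = 2 ^ (18 + l) := (pow_add _ _ _).symm
  have h2 := par_six (2 * (3 * (360 * l)))
  calc 100000 * (2 * 2 ^ l * (240000 * l) * 6 ^ (2 * (3 * (360 * l))))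
      ≤ 2 ^ 17 * (2 ^ 1 * 2 ^ l * 2 ^ (18 + l) * 2 ^ (3 * (2 * (3 * (360 * l))))) := by
        gcongr
        norm_num
    _ = 2 ^ (17 + (1 + l + (18 + l) + 3 * (2 * (3 * (360 * l))))) := by
        rw [← pow_add, ← pow_add, ← pow_add, ← pow_add]
    _ ≤ 2 ^ (240000 * l) := Nat.pow_le_pow_right (by norm_num) (by omega)
    _ ≤ 3 ^ (240000 * l) := Nat.pow_le_pow_left (by norm_num) _

theorem par_lam (l : ℕ) (hl : 1 ≤ l) (b : ℕ) :
    1000 * b + 1000 ≤ 4 * (2 ^ l * 3 ^ b * (240000 * l)) := by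
  have h1 : b + 1 ≤ 3 ^ b := Nat.lt_pow_self (by norm_num)
  have h2 : 1 ≤ 2 ^ l := Nat.one_le_two_pow
  calc 1000 * b + 1000 = 1000 * 1 * (b + 1) := by ring
    _ ≤ 960000 * 2 ^ l * 3 ^ b := by
        gcongr
        norm_num
    _ = 4 * (2 ^ l * 3 ^ b * (240000 * 1)) := by ring
    _ ≤ 4 * (2 ^ l * 3 ^ b * (240000 * l)) := by gcongr

theorem par_N (l : ℕ) (hl : 1 ≤ l) :
    10 * (4 * (2 ^ l * 3 ^ (240000 * l + 2 * (3 * (360 * l)) + 2) * (240000 * l))) + 10000 ≤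
      3 ^ (4 * (240000 * l)) := by
  have h1 : 240000 * l ≤ 3 ^ (240000 * l) := (Nat.lt_pow_self (by norm_num)).le
  have h2 : 2 ^ l ≤ 3 ^ l := Nat.pow_le_pow_left (by norm_num) l
  have h3 : 10 * (4 * (2 ^ l * 3 ^ (240000 * l + 2 * (3 * (360 * l)) + 2) * (240000 * l))) ≤
      3 ^ (4 * (240000 * l) - 1) := by
    calc 10 * (4 * (2 ^ l * 3 ^ (240000 * l + 2 * (3 * (360 * l)) + 2) * (240000 * l)))
        = 40 * (2 ^ l * 3 ^ (240000 * l + 2 * (3 * (360 * l)) + 2) * (240000 * l)) := by ring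
      _ ≤ 3 ^ 4 * (3 ^ l * 3 ^ (240000 * l + 2 * (3 * (360 * l)) + 2) * 3 ^ (240000 * l)) := by
          gcongr
          norm_num
      _ = 3 ^ (4 + (l + (240000 * l + 2 * (3 * (360 * l)) + 2) + 240000 * l)) := by
          rw [← pow_add, ← pow_add, ← pow_add]
      _ ≤ 3 ^ (4 * (240000 * l) - 1) := Nat.pow_le_pow_right (by norm_num) (by omega)
  have h4 : 10000 ≤ 3 ^ (4 * (240000 * l) - 1) := by
    calc 10000 ≤ 3 ^ 9 := by norm_num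
      _ ≤ 3 ^ (4 * (240000 * l) - 1) := Nat.pow_le_pow_right (by norm_num) (by omega)
  calc 10 * (4 * (2 ^ l * 3 ^ (240000 * l + 2 * (3 * (360 * l)) + 2) * (240000 * l))) + 10000
      ≤ 3 ^ (4 * (240000 * l) - 1) + 3 ^ (4 * (240000 * l) - 1) := Nat.add_le_add h3 h4
    _ ≤ 3 * 3 ^ (4 * (240000 * l) - 1) := by omega
    _ = 3 ^ (4 * (240000 * l) - 1 + 1) := by rw [pow_succ, mul_comm]
    _ = 3 ^ (4 * (240000 * l)) := by
        congr 1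
        omega

/-- module PAR -/
theorem st_PAR : ST_PAR := by
  intro l hl
  have hK : 1 ≤ 2 ^ l := Nat.one_le_two_pow
  refine ⟨hK, ?_, ?_, ?_, ?_, ?_, ?_, ?_, ?_, ?_, ?_, ?_, ?_⟩
  · show 1 ≤ 360 * l
    omega
  · show 5 * (360 * l) ≤ 240000 * l
    omega
  · show 240000 * l ∣ 4 * (2 ^ l * 3 ^ (240000 * l + 2 * (3 * (360 * l)) + 2) * (240000 * l))
    exact Dvd.dvd.mul_left (Dvd.intro_left _ rfl) _
  · show 1000 * (240000 * l + 2 * (3 * (360 * l)) + 2) + 1000 ≤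
      4 * (2 ^ l * 3 ^ (240000 * l + 2 * (3 * (360 * l)) + 2) * (240000 * l))
    exact par_lam l hl _
  · show 2 ^ l ≤ 4 * (2 ^ l * 3 ^ (240000 * l + 2 * (3 * (360 * l)) + 2) * (240000 * l))
    have h1 : 1 ≤ 3 ^ (240000 * l + 2 * (3 * (360 * l)) + 2) := Nat.one_le_pow _ _ (by norm_num)
    generalize 3 ^ (240000 * l + 2 * (3 * (360 * l)) + 2) = Y at h1
    calc 2 ^ l = 1 * (2 ^ l * 1 * 1) := by ring
      _ ≤ 4 * (2 ^ l * Y * (240000 * l)) := by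
          gcongr
          · norm_num
          · omega
  · show 4 * (2 ^ l * 3 ^ (240000 * l + 2 * (3 * (360 * l)) + 2) * (240000 * l)) ≤
      4 * (2 ^ l * 3 ^ (240000 * l + 2 * (3 * (360 * l)) + 2) * (240000 * l))
    exact le_refl _
  · exact par_N l hl
  · show 10000 ≤ 3 ^ (240000 * l)
    calc 10000 ≤ 3 ^ 9 := by norm_num
      _ ≤ 3 ^ (240000 * l) := Nat.pow_le_pow_right (by norm_num) (by omega)
  · exact par_p1 l hl
  · show 100000 * (4 * (2 ^ l) ^ 2 * (240000 * l) ^ 2 * 6 ^ (240000 * l + 4 * (3 * (360 * l)))) ≤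
      100000 * (4 * (2 ^ l) ^ 2 * (240000 * l) ^ 2 * 6 ^ (4 * (3 * (360 * l)))) *
        2 ^ (240000 * l) * 3 ^ (240000 * l)
    apply le_of_eq
    have h6 : (6 : ℕ) ^ (240000 * l) = 2 ^ (240000 * l) * 3 ^ (240000 * l) := by
      rw [show (6 : ℕ) = 2 * 3 by norm_num, mul_pow]
    rw [pow_add, h6]
    ring
  · exact par_p3 l hl
  · exact par_p4 l hl

end Pool.Agent.Helper82.EN
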